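import Pool.Agent.H63.Free.Main

set_option autoImplicit false
open Pool.Agent.H63.Free

namespace Pool.Agent.Results.MP_dd0577_an.CommutingBAP

/-- For every compact subset `K` of a Euclidean space and every base point in `K`, the
Lipschitz-free space `F(K)` has the commuting bounded approximation property. -/
theorem result (d : ℕ) (K : Set (EuclideanSpace ℝ (Fin d))) (hK : IsCompact K) (o : K) :
    HasCommutingBAP (LipFree K o) :=
  hasCommutingBAP_lipFree o hK

end Pool.Agent.Results.MP_dd0577_an.CommutingBAP
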